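import Pool.Agent.Helper72.WC.Defs

/-! # WC-K: clusters -/

set_option autoImplicit false

namespace Pool.Agent.Helper72.WC

open Finset

variable {n : ℕ}

/-- the closed neighbourhood -/
def h63N (C : Finset (Sym2 (Fin n))) (v : Fin n) : Finset (Fin n) := insert v (nb C v)

theorem h63_mem_nb {C : Finset (Sym2 (Fin n))} {x y : Fin n} : y ∈ nb C x ↔ s(x, y) ∈ C := by
  simp [nb]

theorem h63_self (C : Finset (Sym2 (Fin n))) (v : Fin n) : v ∈ h63N C v := mem_insert_self _ _

theorem h63_notMem {C : Finset (Sym2 (Fin n))} (hC : C ⊆ board n) (v : Fin n) : v ∉ nb C v := by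
  intro h
  have h1 := hC (h63_mem_nb.1 h)
  simp [board] at h1

/-- a maximal set of vertices with disjoint closed neighbourhoods -/
theorem h63_max (C : Finset (Sym2 (Fin n))) :
    ∃ Z : Finset (Fin n), (∀ z ∈ Z, ∀ z' ∈ Z, z ≠ z' → Disjoint (h63N C z) (h63N C z')) ∧
      ∀ v, ∃ z ∈ Z, ¬ Disjoint (h63N C v) (h63N C z) := by
  classical
  let P : Finset (Finset (Fin n)) := univ.filter fun Z =>
    ∀ z ∈ Z, ∀ z' ∈ Z, z ≠ z' → Disjoint (h63N C z) (h63N C z')
  have hP : P.Nonempty := ⟨∅, by simp [P]⟩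
  obtain ⟨Z, hZ, hmax⟩ := Finset.exists_max_image P Finset.card hP
  have hZ' : ∀ z ∈ Z, ∀ z' ∈ Z, z ≠ z' → Disjoint (h63N C z) (h63N C z') := by
    simpa [P] using hZ
  refine ⟨Z, hZ', fun v => ?_⟩
  by_contra hcon
  push Not at hcon
  have hv : v ∉ Z := fun hv => by
    have h1 := hcon v hv
    exact (Finset.disjoint_left.1 h1 (h63_self C v)) (h63_self C v)
  have h2 : insert v Z ∈ P := by
    simp only [P, mem_filter, mem_univ, true_and]
    intro z hz z' hz' hne
    rw [mem_insert] at hz hz'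
    rcases hz with rfl | hz <;> rcases hz' with rfl | hz'
    · exact absurd rfl hne
    · exact hcon z' hz'
    · exact (hcon z hz).symm
    · exact hZ' z hz z' hz' hne
  have h3 := hmax _ h2
  rw [card_insert_of_notMem hv] at h3
  omega

/-- the map to the centres -/
theorem h63_map (C : Finset (Sym2 (Fin n))) :
    ∃ (Z : Finset (Fin n)) (f : Fin n → Fin n), (∀ v, f v ∈ Z) ∧ (∀ z ∈ Z, ∀ v ∈ h63N C z, f v = z) ∧
      ∀ v, v ∉ h63N C (f v) → ∃ u, u ∈ nb C v ∧ u ∈ nb C (f v) := by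
  classical
  obtain ⟨Z, hZ, hmax⟩ := h63_max C
  have hex : ∀ v, ∃ z ∈ Z, (v ∈ h63N C z) ∨
      ((∀ z' ∈ Z, v ∉ h63N C z') ∧ ∃ u, u ∈ h63N C v ∧ u ∈ h63N C z) := by
    intro v
    by_cases h : ∃ z ∈ Z, v ∈ h63N C z
    · obtain ⟨z, hz, hv⟩ := h
      exact ⟨z, hz, Or.inl hv⟩
    · push Not at h
      obtain ⟨z, hz, hd⟩ := hmax v
      obtain ⟨u, hu, hu'⟩ := Finset.not_disjoint_iff.1 hd
      exact ⟨z, hz, Or.inr ⟨h, u, hu, hu'⟩⟩
  choose f hfZ hf using hex
  refine ⟨Z, f, hfZ, ?_, ?_⟩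
  · intro z hz v hv
    rcases hf v with h | ⟨h, _⟩
    · by_contra hne
      exact Finset.disjoint_left.1 (hZ _ (hfZ v) _ hz hne) h hv
    · exact absurd hv (h z hz)
  · intro v hv
    rcases hf v with h | ⟨h, u, hu, hu'⟩
    · exact absurd h hv
    · have hne1 : u ≠ v := by
        rintro rfl
        exact hv hu'
      have hu1 : u ∈ nb C v := (mem_insert.1 hu).resolve_left hne1
      have hne2 : u ≠ f v := by
        intro he
        apply hv
        rw [he] at hu1
        refine mem_insert_of_mem ?_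
        rw [h63_mem_nb] at hu1 ⊢
        rw [Sym2.eq_swap]
        exact hu1
      exact ⟨u, hu1, (mem_insert.1 hu').resolve_left hne2⟩

theorem clusters {C : Finset (Sym2 (Fin n))} {k Δ : ℕ} (hC : C ⊆ board n)
    (hlo : ∀ x, k ≤ dg C x) (hup : ∀ x, dg C x ≤ Δ) :
    ∃ f : Fin n → Fin n, (∀ v, f (f v) = f v) ∧ (∀ v, Conn C (cl f (f v))) ∧
      (∀ v, k + 1 ≤ (cl f (f v)).card) ∧ ∀ v, (cl f (f v)).card ≤ (Δ + 1) ^ 2 := by
  classical
  obtain ⟨Z, f, hfZ, hN, hfar⟩ := h63_map C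
  have hcard : ∀ v, (h63N C v).card = dg C v + 1 := fun v => by
    rw [h63N, card_insert_of_notMem (h63_notMem hC v), dg]
  have hsub : ∀ z ∈ Z, h63N C z ⊆ cl f z := by
    intro z hz v hv
    simp only [cl, mem_filter, mem_univ, true_and]
    exact hN z hz v hv
  have hmem : ∀ z v, v ∈ cl f z → v = z ∨ s(z, v) ∈ C ∨ ∃ u, s(v, u) ∈ C ∧ s(z, u) ∈ C := by
    intro z v hv
    have hfv : f v = z := by simpa [cl] using hv
    by_cases h : v ∈ h63N C (f v)
    · rw [hfv] at h
      rcases mem_insert.1 h with h | h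
      · exact Or.inl h
      · exact Or.inr (Or.inl (h63_mem_nb.1 h))
    · obtain ⟨u, hu, hu'⟩ := hfar v h
      rw [hfv] at hu'
      exact Or.inr (Or.inr ⟨u, h63_mem_nb.1 hu, h63_mem_nb.1 hu'⟩)
  refine ⟨f, fun v => hN _ (hfZ v) _ (h63_self C _), fun v => ?_, fun v => ?_, fun v => ?_⟩
  · have hz := hfZ v
    generalize f v = z at hz
    have hzX : z ∈ cl f z := hsub z hz (h63_self C z)
    refine ⟨⟨z, hzX⟩, ?_⟩
    intro S hS hSne hXS
    by_contra hcon
    push Not at hcon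
    have hclosed : ∀ x ∈ S, ∀ y ∈ cl f z, s(x, y) ∈ C → y ∈ S := by
      intro x hx y hy hxy
      by_contra hyS
      exact hcon x hx y (mem_sdiff.2 ⟨hy, hyS⟩) hxy
    have hnbX : ∀ u, s(z, u) ∈ C → u ∈ cl f z := fun u hu =>
      hsub z hz (mem_insert_of_mem (h63_mem_nb.2 hu))
    by_cases hzS : z ∈ S
    · obtain ⟨y, hy⟩ := hXS
      rw [mem_sdiff] at hy
      apply hy.2
      rcases hmem z y hy.1 with rfl | h | ⟨u, hu, hu'⟩
      · exact hzS
      · exact hclosed z hzS y hy.1 h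
      · have huS := hclosed z hzS u (hnbX u hu') hu'
        rw [Sym2.eq_swap] at hu
        exact hclosed u huS y hy.1 hu
    · obtain ⟨x, hx⟩ := hSne
      apply hzS
      rcases hmem z x (hS hx) with rfl | h | ⟨u, hu, hu'⟩
      · exact hx
      · rw [Sym2.eq_swap] at h
        exact hclosed x hx z hzX h
      · have huS := hclosed x hx u (hnbX u hu') hu
        rw [Sym2.eq_swap] at hu'
        exact hclosed u huS z hzX hu'
  · refine le_trans ?_ (card_le_card (hsub _ (hfZ v)))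
    rw [hcard]
    have := hlo (f v)
    omega
  · have h1 : cl f (f v) ⊆ (h63N C (f v)).biUnion (h63N C) := by
      intro y hy
      rw [mem_biUnion]
      rcases hmem (f v) y hy with rfl | h | ⟨u, hu, hu'⟩
      · exact ⟨f v, h63_self C _, h63_self C _⟩
      · exact ⟨y, mem_insert_of_mem (h63_mem_nb.2 h), h63_self C _⟩
      · refine ⟨u, mem_insert_of_mem (h63_mem_nb.2 hu'), mem_insert_of_mem (h63_mem_nb.2 ?_)⟩
        rw [Sym2.eq_swap]
        exact hu
    refine (card_le_card h1).trans ?_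
    refine card_biUnion_le.trans ?_
    calc ∑ u ∈ h63N C (f v), (h63N C u).card ≤ ∑ _u ∈ h63N C (f v), (Δ + 1) :=
          Finset.sum_le_sum fun u _ => by rw [hcard]; have := hup u; omega
      _ = (h63N C (f v)).card * (Δ + 1) := by rw [sum_const, smul_eq_mul]
      _ ≤ (Δ + 1) * (Δ + 1) := by
          refine Nat.mul_le_mul_right _ ?_
          rw [hcard]; have := hup (f v); omega
      _ = (Δ + 1) ^ 2 := by ring

end Pool.Agent.Helper72.WC
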